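import Mathlib
import Pool.Agent.Lib_helper30.Berman.Final

/-!
# The exotic automorphism of helper30's group of order 4608: explicit form

`sigma` sends the class sum of the class `B` of `m bb` to `z B + 2 - 2 z`, `z = m zeta`.
-/

set_option autoImplicit false

namespace Pool.Agent.Berman

open L

lemma bf_card_Gt : Nat.card Gt = 18432 := by
  rw [← Nat.card_congr equivGt, Nat.card_prod, Nat.card_prod, Nat.card_prod, Nat.card_prod,
    Nat.card_zmod, Nat.card_eq_fintype_card (α := L), Nat.card_eq_fintype_card (α := Bool),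
    Fintype.card_bool]
  rw [show Fintype.card L = 48 by rw [← card_L]]

/-- the elements of the kernel, as a list -/
def bf_KS : Finset Gt := {1, zeta * k1, zeta * k2, k1 * k2}

lemma bf_mem {g : Gt} (h : g ∈ bf_KS) : g ∈ K := by
  rw [mem_K]
  simpa only [bf_KS, Finset.mem_insert, Finset.mem_singleton] using h

lemma bf_mem' {g : Gt} (h : g ∈ K) : g ∈ bf_KS := by
  rw [mem_K] at h
  simpa only [bf_KS, Finset.mem_insert, Finset.mem_singleton] using h

lemma bf_card_K : Nat.card K = 4 := by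
  have h : ((K : Subgroup Gt) : Set Gt) = (bf_KS : Set Gt) := by
    ext g
    exact ⟨fun h => bf_mem' h, fun h => bf_mem h⟩
  have h2 : Nat.card ((K : Subgroup Gt) : Set Gt) = bf_KS.card := by
    rw [h]
    simp
  have h3 : bf_KS.card = 4 := by decide +kernel
  rw [← h3, ← h2]
  rfl

lemma bf_card_G : Fintype.card G = 4608 := by
  have h := Subgroup.card_eq_card_quotient_mul_card_subgroup K
  rw [bf_card_Gt, bf_card_K] at h
  rw [← Nat.card_eq_fintype_card]
  show Nat.card (Gt ⧸ K) = 4608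
  omega

lemma bf_val : ∀ (s : ZMod 2) (a b : L), sig1 ⟨s, a, b, 0, false⟩ = 0 ∨
    sig1 ⟨s, a, b, 0, false⟩ = 1 ∨ sig1 ⟨s, a, b, 0, false⟩ = -1 ∨
    sig1 ⟨s, a, b, 0, false⟩ = 2 ∨ sig1 ⟨s, a, b, 0, false⟩ = -2 := by decide +kernel

lemma bf_two : ∀ (s : ZMod 2) (a b : L), sig1 ⟨s, a, b, 0, false⟩ = -2 →
    (⟨s, a, b, 0, false⟩ : Gt) ∈ bf_KS := by decide +kernel

lemma bf_one : ∀ (s : ZMod 2) (a b : L), sig1 ⟨s, a, b, 0, false⟩ = 1 →
    ∃ i, (⟨s, a, b, 0, false⟩ : Gt)⁻¹ * kap1 i ∈ bf_KS ∨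
      (⟨s, a, b, 0, false⟩ : Gt)⁻¹ * kap2 i ∈ bf_KS := by decide +kernel

lemma bf_conj1 : ∀ i, ∃ h : L, (⟨0, h, 1, 0, false⟩ : Gt) * bb * (⟨0, h, 1, 0, false⟩ : Gt)⁻¹ =
    kap1 i := by decide +kernel

lemma bf_conj2 : ∀ i, (⟨0, 1, 1, 0, true⟩ : Gt) * kap1 i * (⟨0, 1, 1, 0, true⟩ : Gt)⁻¹ =
    kap2 i := by decide +kernel

lemma bf_zero {g : Gt} (h : ¬ (g.e = 0 ∧ g.p = false)) : sig1 g = 0 := by
  unfold sig1
  rw [if_neg h]

lemma bf_cases (g : Gt) : sig1 g = 0 ∨ sig1 g = 1 ∨ sig1 g = -1 ∨ sig1 g = 2 ∨ sig1 g = -2 := by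
  obtain ⟨s, a, b, e, p⟩ := g
  by_cases h : e = 0 ∧ p = false
  · obtain ⟨rfl, rfl⟩ := h
    exact bf_val s a b
  · exact Or.inl (bf_zero h)

lemma bf_mk1 (i : Fin 8) : ConjClasses.mk (m (kap1 i)) = ConjClasses.mk (m bb) := by
  obtain ⟨h, hh⟩ := bf_conj1 i
  rw [← hh, ConjClasses.mk_eq_mk_iff_isConj, map_mul, map_mul, map_inv]
  exact (isConj_iff.2 ⟨_, rfl⟩ : IsConj (m bb) _).symm

lemma bf_mk2 (i : Fin 8) : ConjClasses.mk (m (kap2 i)) = ConjClasses.mk (m bb) := by
  rw [← bf_mk1 i, ← bf_conj2 i, ConjClasses.mk_eq_mk_iff_isConj, map_mul, map_mul, map_inv]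
  exact (isConj_iff.2 ⟨_, rfl⟩ : IsConj (m (kap1 i)) _).symm

lemma bf_one' {g : Gt} (h : sig1 g = 1) : ∃ i, m g = m (kap1 i) ∨ m g = m (kap2 i) := by
  obtain ⟨s, a, b, e, p⟩ := g
  by_cases h0 : e = 0 ∧ p = false
  · obtain ⟨rfl, rfl⟩ := h0
    obtain ⟨i, hi⟩ := bf_one s a b h
    refine ⟨i, ?_⟩
    rw [m_eq_iff, m_eq_iff]
    exact hi.imp bf_mem bf_mem
  · rw [bf_zero h0] at h
    omega

lemma bf_mk_iff (g : Gt) : ConjClasses.mk (m g) = ConjClasses.mk (m bb) ↔ sig1 g = 1 := by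
  constructor
  · intro h
    rw [sig1_eq_of_mk h]
    decide +kernel
  · intro h
    obtain ⟨i, hi | hi⟩ := bf_one' h
    · rw [hi, bf_mk1]
    · rw [hi, bf_mk2]

lemma bf_m_one (g : Gt) : m g = 1 ↔ sig1 g = -2 := by
  constructor
  · intro h
    have h1 : ConjClasses.mk (m g) = ConjClasses.mk (m 1) := by rw [h, map_one]
    rw [sig1_eq_of_mk h1]
    decide +kernel
  · intro h
    obtain ⟨s, a, b, e, p⟩ := g
    by_cases h0 : e = 0 ∧ p = false
    · obtain ⟨rfl, rfl⟩ := h0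
      have h1 := bf_mem (bf_two s a b h)
      rw [← map_one m, eq_comm, m_eq_iff, inv_one, one_mul]
      exact h1
    · rw [bf_zero h0] at h
      omega

/-- the central involution of `G` -/
def bf_z : G := m zeta

lemma bf_z_ne : bf_z ≠ 1 := by
  intro h
  have h1 := (bf_m_one zeta).1 h
  revert h1
  decide +kernel

lemma bf_z_mul : bf_z * bf_z = 1 := by
  unfold bf_z
  rw [← map_mul, zeta_mul_zeta, map_one]

lemma bf_z_center : bf_z ∈ Subgroup.center G := by
  rw [Subgroup.mem_center_iff]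
  intro g
  obtain ⟨g, rfl⟩ := m_surj g
  unfold bf_z
  rw [← map_mul, ← map_mul, zeta_comm]

/-- the class `B` -/
noncomputable def bf_c : ConjClasses G := ConjClasses.mk (m bb)

lemma bf_coeff_z_mul (x : MonoidAlgebra ℤ G) (g : Gt) :
    (MonoidAlgebra.single bf_z (1 : ℤ) * x).coeff (m g) = x.coeff (m (zeta * g)) := by
  have h1 : bf_z⁻¹ = bf_z := inv_eq_of_mul_eq_one_left bf_z_mul
  rw [MonoidAlgebra.coeff_single_mul_apply, h1, one_mul]
  congr 1

lemma bf_coeff_one (n : ℤ) (g : Gt) : (MonoidAlgebra.single (1 : G) n).coeff (m g) =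
    if sig1 g = -2 then n else 0 := by
  classical
  rw [MonoidAlgebra.coeff_single, Finsupp.single_apply]
  by_cases h : sig1 g = -2
  · rw [if_pos h, if_pos ((bf_m_one g).2 h).symm]
  · rw [if_neg h, if_neg (fun h1 => h ((bf_m_one g).1 h1.symm))]

lemma bf_coeff_z (n : ℤ) (g : Gt) : (MonoidAlgebra.single bf_z n).coeff (m g) =
    if sig1 g = 2 then n else 0 := by
  classical
  have h0 : bf_z = m g ↔ sig1 g = 2 := by
    have h1 := bf_m_one (zeta * g)
    rw [sig1_zeta] at h1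
    rw [map_mul] at h1
    have h2 : (bf_z = m g) ↔ (m zeta * m g = 1) := by
      constructor
      · intro h
        rw [← h]
        exact bf_z_mul
      · intro h
        have h3 : m g = (m zeta)⁻¹ := eq_inv_of_mul_eq_one_right h
        have h4 : (m zeta)⁻¹ = m zeta := inv_eq_of_mul_eq_one_left bf_z_mul
        rw [h3, h4]
        rfl
    rw [h2, h1]
    constructor <;> intro h <;> omega
  rw [MonoidAlgebra.coeff_single, Finsupp.single_apply]
  by_cases h : sig1 g = 2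
  · rw [if_pos h, if_pos (h0.2 h)]
  · rw [if_neg h, if_neg (fun h1 => h (h0.1 h1))]

lemma bf_formula : phi (classSum bf_c) = MonoidAlgebra.single bf_z (1 : ℤ) * classSum bf_c +
    MonoidAlgebra.single 1 2 - MonoidAlgebra.single bf_z 2 := by
  apply ext_m
  intro g
  unfold phi
  rw [coeff_sub', coeff_sub', coeff_add', coeff_smul', S_apply, bf_coeff_z_mul, bf_coeff_one,
    bf_coeff_z, coeff_classSum, coeff_classSum]
  unfold bf_c
  rw [LL_classSum]
  have h1 := bf_mk_iff g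
  have h2 := bf_mk_iff (zeta * g)
  rw [sig1_zeta] at h2
  simp only [h1, h2]
  rcases bf_cases g with h | h | h | h | h <;> rw [h] <;> norm_num

/-- the elements of the class `B` -/
def bf_f : Fin 8 ⊕ Fin 8 → Gt := Sum.elim kap1 kap2

lemma bf_f_inj : ∀ x y : Fin 8 ⊕ Fin 8, (bf_f x)⁻¹ * bf_f y ∈ bf_KS → x = y := by decide +kernel

lemma bf_card_class : Nat.card bf_c.carrier = 16 := by
  have h1 : Function.Injective (fun x => m (bf_f x)) := by
    intro x y hxy
    exact bf_f_inj x y (bf_mem' ((m_eq_iff _ _).1 hxy))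
  have h2 : bf_c.carrier = Set.range (fun x => m (bf_f x)) := by
    ext g
    rw [ConjClasses.mem_carrier_iff_mk_eq]
    constructor
    · intro h
      obtain ⟨g, rfl⟩ := m_surj g
      obtain ⟨i, hi | hi⟩ := bf_one' ((bf_mk_iff g).1 h)
      · exact ⟨Sum.inl i, hi.symm⟩
      · exact ⟨Sum.inr i, hi.symm⟩
    · rintro ⟨x, rfl⟩
      rcases x with i | i
      · exact bf_mk1 i
      · exact bf_mk2 i
  rw [h2, Nat.card_range_of_injective h1, Nat.card_eq_fintype_card]
  rfl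

lemma bf_sum_S : ∑ g, S.coeff g = 0 := by
  have h : ∑ g, S.coeff g = ∑ g, S.coeff (bf_z * g) :=
    (Equiv.sum_comp (Equiv.mulLeft bf_z) (fun g => S.coeff g)).symm
  have h2 : ∀ g, S.coeff (bf_z * g) = - S.coeff g := by
    intro g
    obtain ⟨g, rfl⟩ := m_surj g
    unfold bf_z
    rw [← map_mul, S_apply, S_apply, sig1_zeta]
  simp only [h2, Finset.sum_neg_distrib] at h
  omega

lemma bf_aug (x : MonoidAlgebra ℤ G) : ∑ g, (phi x).coeff g = ∑ g, x.coeff g := by
  unfold phi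
  simp only [coeff_sub', coeff_smul', Finset.sum_sub_distrib, ← Finset.mul_sum, bf_sum_S]
  ring

lemma bf_not_mul (d : ConjClasses G) (n : ℤ) : phi (classSum bf_c) ≠ n • classSum d := by
  intro h
  have h1 := phi_classSum_one
  have h2 : phi (classSum (ConjClasses.mk (m bb))) = n • classSum d := h
  rw [h2, coeff_smul', coeff_classSum] at h1
  have hd : ConjClasses.mk (m 1) = d := by
    by_contra hd
    rw [if_neg hd] at h1
    omega
  have hn : n = 2 := by
    rw [if_pos hd] at h1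
    omega
  have h3 := congrArg phi h
  rw [phi_phi] at h3
  have h4 := congrArg (fun y : MonoidAlgebra ℤ G => y.coeff (m bb)) h3
  rw [coeff_classSum] at h4
  unfold bf_c at h4
  rw [if_pos rfl, hn] at h4
  have h5 : phi ((2 : ℤ) • classSum d) = (2 : ℤ) • phi (classSum d) := by
    unfold phi
    rw [LL_smul, smul_sub, smul_smul]
  rw [h5, coeff_smul'] at h4
  omega

end Pool.Agent.Berman
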